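import Pool.Agent.H9.Shrink

set_option autoImplicit false

namespace Pool.Agent.Results.MP_9d6213_co.NoHelly

/-- The family `(p i)`, `i ∈ I`, admits a continuous shrinking onto `(q i)`, `i ∈ I`. -/
def Shrinks {d n : ℕ} (p q : Fin n → EuclideanSpace ℝ (Fin d)) (I : Finset (Fin n)) : Prop :=
  ∃ x : Fin n → ℝ → EuclideanSpace ℝ (Fin d),
    (∀ i ∈ I, ContinuousOn (x i) (Set.Icc 0 1) ∧ x i 0 = p i ∧ x i 1 = q i) ∧
    ∀ i ∈ I, ∀ j ∈ I, AntitoneOn (fun t => dist (x i t) (x j t)) (Set.Icc 0 1)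

theorem result : ∀ d : ℕ, 2 ≤ d → ∀ m : ℕ,
    ∃ (n : ℕ) (p q : Fin n → EuclideanSpace ℝ (Fin d)),
      (∀ I : Finset (Fin n), I.card ≤ m → Shrinks p q I) ∧ ¬ Shrinks p q Finset.univ :=
  Pool.Agent.H9.Shrink.main

end Pool.Agent.Results.MP_9d6213_co.NoHelly
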